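import Pool.Agent.Helper37_TET.OkX

/-!
# MP_c7c9bf_co: the exception regions

`X_0`: `|A C| ≤ 12/25 |A B|`, `|B D| ≤ 33/100 |A B|`, the foot of `C` on `A B` is at most `1/5`, the foot of
`D` is at least `4/5`.  `X_1`: `|C D| ≤ 48/125 |A B|`, both feet are in `[49/100, 51/100]`.
-/

set_option autoImplicit false

namespace Pool.Agent.TET.Cvr

/-- the exception region `X_0` -/
def xR : List Cd :=
  [.q ⟨13, 12, -25, 0⟩ ⟨-37, 12, 25, 0⟩, .q ⟨-33, 133, 0, -100⟩ ⟨-33, -67, 0, 100⟩,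
   .q ⟨4, 1, -5, 0⟩ ⟨-1, 1, 0, 0⟩, .q ⟨-1, -4, 0, 5⟩ ⟨-1, 1, 0, 0⟩]

/-- the exception region `X_1` -/
def xR1 : List Cd :=
  [.q ⟨-48, 48, 125, -125⟩ ⟨-48, 48, -125, 125⟩, .q ⟨-51, -49, 100, 0⟩ ⟨-1, 1, 0, 0⟩,
   .q ⟨49, 51, -100, 0⟩ ⟨-1, 1, 0, 0⟩, .q ⟨-51, -49, 0, 100⟩ ⟨-1, 1, 0, 0⟩,
   .q ⟨49, 51, 0, -100⟩ ⟨-1, 1, 0, 0⟩]

/-- both exception regions -/
def xL : List (List Cd) := [xR, xR1]

end Pool.Agent.TET.Cvr
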