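import Pool.Agent.Helper37_TET.OkX

/-!
# MP_c7c9bf_co: the exception region with a condition on the difference of the feet

`X_0'`: `|A C| ≤ 12/25 |A B|`, `|B D| ≤ 33/100 |A B|`, the foot of `C` on `A B` is at most `19/100`, the foot
of `D` is at least `81/100`, and the difference of the feet is between `73/100` and `7/8`.
-/

set_option autoImplicit false

namespace Pool.Agent.TET.Cvr

/-- the exception region `X_0'` -/
def xRD : List Cd :=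
  [.q ⟨13, 12, -25, 0⟩ ⟨-37, 12, 25, 0⟩, .q ⟨-33, 133, 0, -100⟩ ⟨-33, -67, 0, 100⟩,
   .q ⟨81, 19, -100, 0⟩ ⟨-1, 1, 0, 0⟩, .q ⟨-19, -81, 0, 100⟩ ⟨-1, 1, 0, 0⟩,
   .q ⟨73, -73, -100, 100⟩ ⟨-1, 1, 0, 0⟩, .q ⟨-7, 7, 8, -8⟩ ⟨-1, 1, 0, 0⟩]

end Pool.Agent.TET.Cvr
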