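import Pool.Agent.Helper86_TET.PlanB3
import Pool.Agent.Helper86_TET.XReg
import Pool.Agent.Helper38_TET.NonObt

/-!
# MP_c7c9bf_co: all tetrahedra outside of the exception regions, final form

`finB`: the only exception region is `X_0`.  `finC`: the exception regions are `X_0` and `X_1`.
-/

set_option autoImplicit false

namespace Pool.Agent.TET

open MeasureTheory Set Filter Pool.Agent.UL3 Pool.Agent.UL3.H88
open scoped ENNReal Topology RealInnerProductSpace Matrix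
open Cvr (V4 Cd)

/-- the exception region `X_0` as a list of plain conditions -/
def xP : List (ℕ × ℤ × ℤ) :=
  [(0, 12, 25), (1, 33, 100), (6, 1, 5), (7, 4, 5)]

/-- the exception region `X_1` as a list of plain conditions -/
def xP1 : List (ℕ × ℤ × ℤ) :=
  [(2, 48, 125), (5, 49, 100), (6, 51, 100), (7, 49, 100), (8, 51, 100)]

theorem xP_eq : xP.map xcd = Cvr.xR := rfl

theorem xP1_eq : xP1.map xcd = Cvr.xR1 := rfl

/-- the plain conditions of `X_0` -/
def XX (A B C D : E3) : Prop :=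
  25 * dist A C ≤ 12 * dist A B ∧ 100 * dist B D ≤ 33 * dist A B ∧
    5 * ⟪B - A, C - A⟫ ≤ dist A B ^ 2 ∧ 4 * dist A B ^ 2 ≤ 5 * ⟪B - A, D - A⟫

/-- the plain conditions of `X_1` -/
def XY (A B C D : E3) : Prop :=
  125 * dist C D ≤ 48 * dist A B ∧
    49 * dist A B ^ 2 ≤ 100 * ⟪B - A, C - A⟫ ∧ 100 * ⟪B - A, C - A⟫ ≤ 51 * dist A B ^ 2 ∧
    49 * dist A B ^ 2 ≤ 100 * ⟪B - A, D - A⟫ ∧ 100 * ⟪B - A, D - A⟫ ≤ 51 * dist A B ^ 2

theorem xx_of {A B C D : E3} (h : ∀ t ∈ xP, plain A B C D t) : XX A B C D := by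
  have h1 := h (0, 12, 25) (List.mem_of_getElem? (i := 0) rfl)
  have h2 := h (1, 33, 100) (List.mem_of_getElem? (i := 1) rfl)
  have h3 := h (6, 1, 5) (List.mem_of_getElem? (i := 2) rfl)
  have h4 := h (7, 4, 5) (List.mem_of_getElem? (i := 3) rfl)
  simp only [plain] at h1 h2 h3 h4
  norm_num at h1 h2 h3 h4
  exact ⟨h1, h2, h3, h4⟩

theorem xy_of {A B C D : E3} (h : ∀ t ∈ xP1, plain A B C D t) : XY A B C D := by
  have h1 := h (2, 48, 125) (List.mem_of_getElem? (i := 0) rfl)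
  have h2 := h (5, 49, 100) (List.mem_of_getElem? (i := 1) rfl)
  have h3 := h (6, 51, 100) (List.mem_of_getElem? (i := 2) rfl)
  have h4 := h (7, 49, 100) (List.mem_of_getElem? (i := 3) rfl)
  have h5 := h (8, 51, 100) (List.mem_of_getElem? (i := 4) rfl)
  simp only [plain] at h1 h2 h3 h4 h5
  norm_num at h1 h2 h3 h4 h5
  exact ⟨h1, h2, h3, h4, h5⟩

/-- all tetrahedra outside of the exception region `X_0` -/
theorem finX {TN TS : List (List Cd)} (rN : ∀ R ∈ TN, R = Cvr.xR ∨ ROK R) (zN : zcT TN = true)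
    (rS : ∀ R ∈ TS, R = Cvr.xR ∨ ROK R) (zS : zcT TS = true) (hN : CoverN TN) (hS : CoverS TS)
    {p : Fin 4 → E3} (hp : AffineIndependent ℝ p)
    (hX : ∀ σ : Equiv.Perm (Fin 4), ¬ XX (p (σ 0)) (p (σ 1)) (p (σ 2)) (p (σ 3))) :
    Dense (convexHull ℝ (Set.range p)) := by
  have e : ([xP].map (List.map xcd)) = [Cvr.xR] := rfl
  refine planBG (X := [xP]) ?_ (TN := TN) (TS := TS) (e ▸ okl_of rN) zN (e ▸ okl_of rS) zS hN hS
    hp ?_
  · decide
  · intro R hR σ h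
    have hR' : R = xP := List.mem_singleton.1 hR
    subst hR'
    exact hX σ (xx_of h)

/-- all tetrahedra outside of the exception regions `X_0` and `X_1` -/
theorem finY {TN TS : List (List Cd)} (rN : ∀ R ∈ TN, R ∈ Cvr.xL ∨ ROK R) (zN : zcT TN = true)
    (rS : ∀ R ∈ TS, R ∈ Cvr.xL ∨ ROK R) (zS : zcT TS = true) (hN : CoverN TN) (hS : CoverS TS)
    {p : Fin 4 → E3} (hp : AffineIndependent ℝ p)
    (hX : ∀ σ : Equiv.Perm (Fin 4), ¬ XX (p (σ 0)) (p (σ 1)) (p (σ 2)) (p (σ 3)))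
    (hY : ∀ σ : Equiv.Perm (Fin 4), ¬ XY (p (σ 0)) (p (σ 1)) (p (σ 2)) (p (σ 3))) :
    Dense (convexHull ℝ (Set.range p)) := by
  have e : ([xP, xP1].map (List.map xcd)) = Cvr.xL := rfl
  refine planBG (X := [xP, xP1]) ?_ (TN := TN) (TS := TS) (e ▸ rN) zN (e ▸ rS) zS hN hS hp ?_
  · decide
  · intro R hR σ h
    rcases List.mem_cons.1 hR with h1 | h1
    · subst h1
      exact hX σ (xx_of h)
    · have hR' : R = xP1 := List.mem_singleton.1 h1
      subst hR'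
      exact hY σ (xy_of h)

/-- the longest edge is at most three times the shortest one -/
theorem not_xx_of_ratio {p : Fin 4 → E3} (hp : AffineIndependent ℝ p)
    (h : ∀ i j k l : Fin 4, k ≠ l → dist (p i) (p j) ≤ 3 * dist (p k) (p l))
    (σ : Equiv.Perm (Fin 4)) : ¬ XX (p (σ 0)) (p (σ 1)) (p (σ 2)) (p (σ 3)) := by
  rintro ⟨-, h1, -⟩
  have hne : σ 1 ≠ σ 3 := fun e => absurd (σ.injective e) (by decide)
  have h2 := h (σ 0) (σ 1) (σ 1) (σ 3) hne
  have h3 : 0 < dist (p (σ 1)) (p (σ 3)) := dist_pos.2 fun e => hne (hp.injective e)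
  linarith

/-- the longest edge is at most `13/5` times the shortest one -/
theorem not_xy_of_ratio {p : Fin 4 → E3} (hp : AffineIndependent ℝ p)
    (h : ∀ i j k l : Fin 4, k ≠ l → dist (p i) (p j) ≤ 13 / 5 * dist (p k) (p l))
    (σ : Equiv.Perm (Fin 4)) : ¬ XY (p (σ 0)) (p (σ 1)) (p (σ 2)) (p (σ 3)) := by
  rintro ⟨h1, -⟩
  have hne : σ 2 ≠ σ 3 := fun e => absurd (σ.injective e) (by decide)
  have h2 := h (σ 0) (σ 1) (σ 2) (σ 3) hne
  have h3 : 0 < dist (p (σ 2)) (p (σ 3)) := dist_pos.2 fun e => hne (hp.injective e)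
  linarith

theorem range_four (p : Fin 4 → E3) (σ : Equiv.Perm (Fin 4)) :
    Set.range p = {p (σ 0), p (σ 1), p (σ 2), p (σ 3)} := by
  rw [← range_perm p σ]
  ext x
  simp only [Set.mem_range, Set.mem_insert_iff, Set.mem_singleton_iff, Function.comp]
  constructor
  · rintro ⟨i, rfl⟩
    fin_cases i
    · exact Or.inl rfl
    · exact Or.inr (Or.inl rfl)
    · exact Or.inr (Or.inr (Or.inl rfl))
    · exact Or.inr (Or.inr (Or.inr rfl))
  · rintro (rfl | rfl | rfl | rfl)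
    · exact ⟨0, rfl⟩
    · exact ⟨1, rfl⟩
    · exact ⟨2, rfl⟩
    · exact ⟨3, rfl⟩

/-- the hand-in, one exception region -/
theorem finB {TN TS : List (List Cd)} (rN : ∀ R ∈ TN, R = Cvr.xR ∨ ROK R) (zN : zcT TN = true)
    (rS : ∀ R ∈ TS, R = Cvr.xR ∨ ROK R) (zS : zcT TS = true) (hN : CoverN TN) (hS : CoverS TS) :
    ∀ p : Fin 4 → EuclideanSpace ℝ (Fin 3), AffineIndependent ℝ p →
      ((∀ i j k l : Fin 4, k ≠ l → dist (p i) (p j) ≤ 3 * dist (p k) (p l)) ∨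
        (∀ A B C D : EuclideanSpace ℝ (Fin 3), Set.range p = {A, B, C, D} →
          ¬ (dist A C ≤ 12 / 25 * dist A B ∧ dist B D ≤ 33 / 100 * dist A B ∧
            inner ℝ (B - A) (C - A) ≤ 1 / 5 * dist A B ^ 2 ∧
            4 / 5 * dist A B ^ 2 ≤ inner ℝ (B - A) (D - A))) ∨
        ∃ b : Fin 4 → Fin 4 → ℝ, (∀ i, b i i = 0) ∧ (∀ i, ∑ j, b i j = 1) ∧
          (∀ i j k, j ≠ i → k ≠ i → inner ℝ (p i - ∑ l, b i l • p l) (p j - p k) = 0) ∧
          ((∀ i j, 0 ≤ b i j) ∨ ∃ i, (∀ j, 0 ≤ b i j) ∧ ∀ j k, j ≠ k →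
            ¬ (9 / 500 ≤ b i j ∧ b i j ≤ 17 / 200 ∧ 9 / 500 ≤ b i k ∧ b i k ≤ 17 / 200))) →
      ∃ f : ℕ → (EuclideanSpace ℝ (Fin 3) ≃ᵢ EuclideanSpace ℝ (Fin 3)),
        (∀ i j : ℕ, i ≠ j →
          Disjoint (interior ((f i) '' (convexHull ℝ (Set.range p))))
            (interior ((f j) '' (convexHull ℝ (Set.range p))))) ∧
        ENNReal.ofReal (Real.pi / (3 * Real.sqrt 2)) ≤
          Filter.limsup
            (fun R : ℝ =>
              volume ((⋃ i : ℕ, (f i) '' (convexHull ℝ (Set.range p))) ∩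
                  Metric.ball (0 : EuclideanSpace ℝ (Fin 3)) R) /
                volume (Metric.ball (0 : EuclideanSpace ℝ (Fin 3)) R))
            Filter.atTop := by
  intro p hp h
  rcases h with h | h | ⟨b, h0, h1, h2, h⟩
  · exact finX rN zN rS zS hN hS hp (not_xx_of_ratio hp h)
  · refine finX rN zN rS zS hN hS hp fun σ hx => ?_
    obtain ⟨x1, x2, x3, x4⟩ := hx
    exact h (p (σ 0)) (p (σ 1)) (p (σ 2)) (p (σ 3)) (range_four p σ)
      ⟨by linarith, by linarith, by linarith, by linarith⟩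
  · have hF : Feet p b := ⟨hp, h0, h1, h2⟩
    rcases h with h | ⟨i, hi, hn⟩
    · exact hF.all h
    · exact hF.one i hi fun j k hjk a1 a2 a3 a4 => hn j k hjk ⟨a1, a2, a3, a4⟩

/-- the hand-in, two exception regions -/
theorem finC {TN TS : List (List Cd)} (rN : ∀ R ∈ TN, R ∈ Cvr.xL ∨ ROK R) (zN : zcT TN = true)
    (rS : ∀ R ∈ TS, R ∈ Cvr.xL ∨ ROK R) (zS : zcT TS = true) (hN : CoverN TN) (hS : CoverS TS) :
    ∀ p : Fin 4 → EuclideanSpace ℝ (Fin 3), AffineIndependent ℝ p →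
      ((∀ i j k l : Fin 4, k ≠ l → dist (p i) (p j) ≤ 13 / 5 * dist (p k) (p l)) ∨
        (∀ A B C D : EuclideanSpace ℝ (Fin 3), Set.range p = {A, B, C, D} →
          ¬ (dist A C ≤ 12 / 25 * dist A B ∧ dist B D ≤ 33 / 100 * dist A B ∧
            inner ℝ (B - A) (C - A) ≤ 1 / 5 * dist A B ^ 2 ∧
            4 / 5 * dist A B ^ 2 ≤ inner ℝ (B - A) (D - A)) ∧
          ¬ (dist C D ≤ 48 / 125 * dist A B ∧
            49 / 100 * dist A B ^ 2 ≤ inner ℝ (B - A) (C - A) ∧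
            inner ℝ (B - A) (C - A) ≤ 51 / 100 * dist A B ^ 2 ∧
            49 / 100 * dist A B ^ 2 ≤ inner ℝ (B - A) (D - A) ∧
            inner ℝ (B - A) (D - A) ≤ 51 / 100 * dist A B ^ 2)) ∨
        ∃ b : Fin 4 → Fin 4 → ℝ, (∀ i, b i i = 0) ∧ (∀ i, ∑ j, b i j = 1) ∧
          (∀ i j k, j ≠ i → k ≠ i → inner ℝ (p i - ∑ l, b i l • p l) (p j - p k) = 0) ∧
          ((∀ i j, 0 ≤ b i j) ∨ ∃ i, (∀ j, 0 ≤ b i j) ∧ ∀ j k, j ≠ k →
            ¬ (9 / 500 ≤ b i j ∧ b i j ≤ 17 / 200 ∧ 9 / 500 ≤ b i k ∧ b i k ≤ 17 / 200))) →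
      ∃ f : ℕ → (EuclideanSpace ℝ (Fin 3) ≃ᵢ EuclideanSpace ℝ (Fin 3)),
        (∀ i j : ℕ, i ≠ j →
          Disjoint (interior ((f i) '' (convexHull ℝ (Set.range p))))
            (interior ((f j) '' (convexHull ℝ (Set.range p))))) ∧
        ENNReal.ofReal (Real.pi / (3 * Real.sqrt 2)) ≤
          Filter.limsup
            (fun R : ℝ =>
              volume ((⋃ i : ℕ, (f i) '' (convexHull ℝ (Set.range p))) ∩
                  Metric.ball (0 : EuclideanSpace ℝ (Fin 3)) R) /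
                volume (Metric.ball (0 : EuclideanSpace ℝ (Fin 3)) R))
            Filter.atTop := by
  intro p hp h
  rcases h with h | h | ⟨b, h0, h1, h2, h⟩
  · refine finY rN zN rS zS hN hS hp (not_xx_of_ratio hp fun i j k l hkl => ?_)
      (not_xy_of_ratio hp h)
    have h1 := h i j k l hkl
    have h2 : 0 ≤ dist (p k) (p l) := dist_nonneg
    linarith
  · refine finY rN zN rS zS hN hS hp (fun σ hx => ?_) (fun σ hx => ?_)
    · obtain ⟨x1, x2, x3, x4⟩ := hx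
      exact (h (p (σ 0)) (p (σ 1)) (p (σ 2)) (p (σ 3)) (range_four p σ)).1
        ⟨by linarith, by linarith, by linarith, by linarith⟩
    · obtain ⟨x1, x2, x3, x4, x5⟩ := hx
      exact (h (p (σ 0)) (p (σ 1)) (p (σ 2)) (p (σ 3)) (range_four p σ)).2
        ⟨by linarith, by linarith, by linarith, by linarith, by linarith⟩
  · have hF : Feet p b := ⟨hp, h0, h1, h2⟩
    rcases h with h | ⟨i, hi, hn⟩
    · exact hF.all h
    · exact hF.one i hi fun j k hjk a1 a2 a3 a4 => hn j k hjk ⟨a1, a2, a3, a4⟩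

end Pool.Agent.TET
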