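import Pool.Agent.Helper86_TET.PlanB4
import Pool.Agent.Helper86_TET.XRegD
import Pool.Agent.Helper86_TET.FinB

/-!
# MP_c7c9bf_co: all tetrahedra outside of the exception region `X_0'`
-/

set_option autoImplicit false

namespace Pool.Agent.TET

open MeasureTheory Set Filter Pool.Agent.UL3 Pool.Agent.UL3.H88
open scoped ENNReal Topology RealInnerProductSpace Matrix
open Cvr (V4 Cd)

/-- the exception region `X_0'` as a list of plain conditions -/
def xPD : List (ℕ × ℤ × ℤ) :=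
  [(0, 12, 25), (1, 33, 100), (6, 19, 100), (7, 81, 100), (9, 73, 100), (10, 7, 8)]

theorem xPD_eq : xPD.map xcd' = Cvr.xRD := rfl

/-- the plain conditions of `X_0'` -/
def XD (A B C D : E3) : Prop :=
  25 * dist A C ≤ 12 * dist A B ∧ 100 * dist B D ≤ 33 * dist A B ∧
    100 * ⟪B - A, C - A⟫ ≤ 19 * dist A B ^ 2 ∧ 81 * dist A B ^ 2 ≤ 100 * ⟪B - A, D - A⟫ ∧
    73 * dist A B ^ 2 ≤ 100 * ⟪B - A, D - C⟫ ∧ 8 * ⟪B - A, D - C⟫ ≤ 7 * dist A B ^ 2

theorem xd_of {A B C D : E3} (h : ∀ t ∈ xPD, plain' A B C D t) : XD A B C D := by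
  have h1 := h (0, 12, 25) (List.mem_of_getElem? (i := 0) rfl)
  have h2 := h (1, 33, 100) (List.mem_of_getElem? (i := 1) rfl)
  have h3 := h (6, 19, 100) (List.mem_of_getElem? (i := 2) rfl)
  have h4 := h (7, 81, 100) (List.mem_of_getElem? (i := 3) rfl)
  have h5 := h (9, 73, 100) (List.mem_of_getElem? (i := 4) rfl)
  have h6 := h (10, 7, 8) (List.mem_of_getElem? (i := 5) rfl)
  simp only [plain', plain] at h1 h2 h3 h4 h5 h6
  norm_num at h1 h2 h3 h4 h5 h6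
  exact ⟨h1, h2, h3, h4, h5, h6⟩

/-- all tetrahedra outside of the exception region `X_0'` -/
theorem finXD {TN TS : List (List Cd)} (rN : ∀ R ∈ TN, R = Cvr.xRD ∨ ROK R)
    (zN : zcT TN = true)
    (rS : ∀ R ∈ TS, R = Cvr.xRD ∨ ROK R) (zS : zcT TS = true) (hN : CoverN TN) (hS : CoverS TS)
    {p : Fin 4 → E3} (hp : AffineIndependent ℝ p)
    (hX : ∀ σ : Equiv.Perm (Fin 4), ¬ XD (p (σ 0)) (p (σ 1)) (p (σ 2)) (p (σ 3))) :
    Dense (convexHull ℝ (Set.range p)) := by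
  have e : ([xPD].map (List.map xcd')) = [Cvr.xRD] := rfl
  refine planBH (X := [xPD]) ?_ (TN := TN) (TS := TS) (e ▸ okl_of rN) zN (e ▸ okl_of rS) zS hN hS
    hp ?_
  · decide
  · intro R hR σ h
    have hR' : R = xPD := List.mem_singleton.1 hR
    subst hR'
    exact hX σ (xd_of h)

/-- the longest edge is at most three times the shortest one -/
theorem not_xd_of_ratio {p : Fin 4 → E3} (hp : AffineIndependent ℝ p)
    (h : ∀ i j k l : Fin 4, k ≠ l → dist (p i) (p j) ≤ 3 * dist (p k) (p l))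
    (σ : Equiv.Perm (Fin 4)) : ¬ XD (p (σ 0)) (p (σ 1)) (p (σ 2)) (p (σ 3)) := by
  rintro ⟨-, h1, -⟩
  have hne : σ 1 ≠ σ 3 := fun e => absurd (σ.injective e) (by decide)
  have h2 := h (σ 0) (σ 1) (σ 1) (σ 3) hne
  have h3 : 0 < dist (p (σ 1)) (p (σ 3)) := dist_pos.2 fun e => hne (hp.injective e)
  linarith

/-- the hand-in, the exception region `X_0'` -/
theorem finD {TN TS : List (List Cd)} (rN : ∀ R ∈ TN, R = Cvr.xRD ∨ ROK R) (zN : zcT TN = true)
    (rS : ∀ R ∈ TS, R = Cvr.xRD ∨ ROK R) (zS : zcT TS = true) (hN : CoverN TN) (hS : CoverS TS) :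
    ∀ p : Fin 4 → EuclideanSpace ℝ (Fin 3), AffineIndependent ℝ p →
      ((∀ i j k l : Fin 4, k ≠ l → dist (p i) (p j) ≤ 3 * dist (p k) (p l)) ∨
        (∀ A B C D : EuclideanSpace ℝ (Fin 3), Set.range p = {A, B, C, D} →
          ¬ (dist A C ≤ 12 / 25 * dist A B ∧ dist B D ≤ 33 / 100 * dist A B ∧
            inner ℝ (B - A) (C - A) ≤ 19 / 100 * dist A B ^ 2 ∧
            81 / 100 * dist A B ^ 2 ≤ inner ℝ (B - A) (D - A) ∧
            73 / 100 * dist A B ^ 2 ≤ inner ℝ (B - A) (D - C) ∧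
            inner ℝ (B - A) (D - C) ≤ 7 / 8 * dist A B ^ 2)) ∨
        ∃ b : Fin 4 → Fin 4 → ℝ, (∀ i, b i i = 0) ∧ (∀ i, ∑ j, b i j = 1) ∧
          (∀ i j k, j ≠ i → k ≠ i → inner ℝ (p i - ∑ l, b i l • p l) (p j - p k) = 0) ∧
          ((∀ i j, 0 ≤ b i j) ∨ ∃ i, (∀ j, 0 ≤ b i j) ∧ ∀ j k, j ≠ k →
            ¬ (9 / 500 ≤ b i j ∧ b i j ≤ 17 / 200 ∧ 9 / 500 ≤ b i k ∧ b i k ≤ 17 / 200))) →
      ∃ f : ℕ → (EuclideanSpace ℝ (Fin 3) ≃ᵢ EuclideanSpace ℝ (Fin 3)),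
        (∀ i j : ℕ, i ≠ j →
          Disjoint (interior ((f i) '' (convexHull ℝ (Set.range p))))
            (interior ((f j) '' (convexHull ℝ (Set.range p))))) ∧
        ENNReal.ofReal (Real.pi / (3 * Real.sqrt 2)) ≤
          Filter.limsup
            (fun R : ℝ =>
              volume ((⋃ i : ℕ, (f i) '' (convexHull ℝ (Set.range p))) ∩
                  Metric.ball (0 : EuclideanSpace ℝ (Fin 3)) R) /
                volume (Metric.ball (0 : EuclideanSpace ℝ (Fin 3)) R))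
            Filter.atTop := by
  intro p hp h
  rcases h with h | h | ⟨b, h0, h1, h2, h⟩
  · exact finXD rN zN rS zS hN hS hp (not_xd_of_ratio hp h)
  · refine finXD rN zN rS zS hN hS hp fun σ hx => ?_
    obtain ⟨x1, x2, x3, x4, x5, x6⟩ := hx
    exact h (p (σ 0)) (p (σ 1)) (p (σ 2)) (p (σ 3)) (range_four p σ)
      ⟨by linarith, by linarith, by linarith, by linarith, by linarith, by linarith⟩
  · have hF : Feet p b := ⟨hp, h0, h1, h2⟩
    rcases h with h | ⟨i, hi, hn⟩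
    · exact hF.all h
    · exact hF.one i hi fun j k hjk a1 a2 a3 a4 => hn j k hjk ⟨a1, a2, a3, a4⟩

end Pool.Agent.TET
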