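import Pool.Agent.Helper86_TET.Tab
import Pool.Agent.Helper37_TET.CovRoot
import Pool.Agent.Helper37_TET.FlG

/-!
# MP_c7c9bf_co: every tetrahedron, from the two covers
-/

set_option autoImplicit false

namespace Pool.Agent.TET

open MeasureTheory Set Filter Pool.Agent.UL3 Pool.Agent.UL3.H88
open scoped ENNReal Topology RealInnerProductSpace Matrix
open Cvr (V4 Cd)

/-- the chart N is covered -/
def CoverN (T : List (List Cd)) : Prop :=
  ∀ x y k al be ga : ℝ, 0 < k → 0 < x → x ≤ y → y ≤ 1 / 2 → 0 < al → al < k * x * (1 - x) →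
    0 < be → be < k * y * (1 - y) → ga ^ 2 < al * be → Cvr.Cvd 0 T x y k al be ga

/-- the chart S is covered -/
def CoverS (T : List (List Cd)) : Prop :=
  ∀ x y k al be ga : ℝ, 0 < k → 9 / 500 ≤ y → y ≤ x → x ≤ 847 / 10000 → x + y ≤ 1635 / 10000 →
    0 < al → 0 < be → ga ^ 2 < al * be → Cvr.Cvd 1 T x y k al be ga

theorem coverN {T : List (List Cd)} (h0 : Cvr.CvS 0 T Cvr.rN0) (h1 : Cvr.CvS 0 T Cvr.rN1)
    (h2 : Cvr.CvS 0 T Cvr.rN2) (h3 : Cvr.CvS 0 T Cvr.rN3) : CoverN T :=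
  fun _ _ _ _ _ _ a b c d e f g h i => Cvr.rootN h0 h1 h2 h3 a b c d e f g h i

theorem coverS {T : List (List Cd)} (h0 : Cvr.CvF 0 T Cvr.rF0) (h1 : Cvr.CvF 0 T Cvr.rF1)
    (h2 : Cvr.CvF 1 T Cvr.rF0) (h3 : Cvr.CvF 1 T Cvr.rF1) : CoverS T :=
  fun _ _ _ _ _ _ a b c d e f g h => Cvr.rootF h0 h1 h2 h3 a b c d e f g h

/-- **every tetrahedron**, from the tables and the covers -/
theorem all_tetrahedra {TN TS : List (List Cd)} (rN : ∀ R ∈ TN, ROK R) (zN : zcT TN = true)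
    (rS : ∀ R ∈ TS, ROK R) (zS : zcT TS = true) (hN : CoverN TN) (hS : CoverS TS)
    {p : Fin 4 → E3} (hp : AffineIndependent ℝ p) : Dense (convexHull ℝ (Set.range p)) := by
  rcases reduction hp with h | ⟨q, G, a, c, k, al, be, ga, hG, hr, hC⟩ |
    ⟨q, G, v, w, k, al, be, ga, hG, hr, hC⟩
  · exact h
  · rw [← hr]
    exact glueN hG hC rN (zcT_zc zN) (hN a c k al be ga hC.k0 hC.a0 hC.ac hC.c1 hC.al0 hC.al1
      hC.be0 hC.be1 hC.ga1)
  · rw [← hr]
    exact glueS hG hC rS (zcT_zc zS) (hS v w k al be ga hC.k0 hC.w0 hC.wv hC.v1 hC.vw hC.al0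
      hC.be0 hC.ga1)

/-- the form of the frozen statement -/
theorem all_tetrahedra' {TN TS : List (List Cd)} (rN : ∀ R ∈ TN, ROK R) (zN : zcT TN = true)
    (rS : ∀ R ∈ TS, ROK R) (zS : zcT TS = true) (hN : CoverN TN) (hS : CoverS TS) :
    ∀ p : Fin 4 → EuclideanSpace ℝ (Fin 3), AffineIndependent ℝ p →
      ∃ f : ℕ → (EuclideanSpace ℝ (Fin 3) ≃ᵢ EuclideanSpace ℝ (Fin 3)),
        (∀ i j : ℕ, i ≠ j →
          Disjoint (interior ((f i) '' (convexHull ℝ (Set.range p))))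
            (interior ((f j) '' (convexHull ℝ (Set.range p))))) ∧
        ENNReal.ofReal (Real.pi / (3 * Real.sqrt 2)) ≤
          Filter.limsup
            (fun R : ℝ =>
              volume ((⋃ i : ℕ, (f i) '' (convexHull ℝ (Set.range p))) ∩
                  Metric.ball (0 : EuclideanSpace ℝ (Fin 3)) R) /
                volume (Metric.ball (0 : EuclideanSpace ℝ (Fin 3)) R))
            Filter.atTop :=
  fun _ hp => all_tetrahedra rN zN rS zS hN hS hp

end Pool.Agent.TET
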