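import Pool.Agent.Helper86_TET.Last

/-!
# MP_c7c9bf_co: all tetrahedra outside of a list of exception regions
-/

set_option autoImplicit false

namespace Pool.Agent.TET

open MeasureTheory Set Filter Pool.Agent.UL3 Pool.Agent.UL3.H88
open scoped ENNReal Topology RealInnerProductSpace Matrix
open Cvr (V4 Cd)

/-- the tetrahedron `p` is in the region `R` -/
def InR (R : List Cd) (p : Fin 4 → E3) : Prop :=
  ∃ G : Fin 4 → E3, Grad p G ∧ ∀ c ∈ R.map cdc, c.holds p G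

/-- a covered tetrahedron is in a region, general chart -/
theorem glueR {p G : Fin 4 → E3} (h : Grad p G) {n d e s q r : Fin 4 → ℝ} {k al be ga : ℝ}
    (hk : 0 < k) (hg : ga ^ 2 < al * be)
    (hm : ∀ x y, ⟪G x, G y⟫ = LM n d e k al be ga x y) (hD : Dual n d e s q r) {ch : ℕ}
    {x y : ℝ} (hn' : Cvr.nR ch x y = n) (hd' : Cvr.dR = d) (he' : Cvr.eR ch = e)
    (hs' : Cvr.sR ch = s) (hq' : Cvr.pR ch x = q) (hr' : Cvr.qR ch y = r)
    {T : List (List Cd)} (hz : ∀ R ∈ T, ∀ c ∈ R, zc c = true)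
    (hc : Cvr.Cvd ch T x y k al be ga) : ∃ R ∈ T, ∃ τ : Equiv.Perm (Fin 4), InR R (p ∘ τ) := by
  obtain ⟨R, hR, σ, hσ, hh⟩ := hc
  let τ : Equiv.Perm (Fin 4) := Equiv.ofBijective σ ((Finite.injective_iff_bijective).1 hσ)
  have hτ : ∀ i, τ i = σ i := fun i => rfl
  have hG := h.perm τ
  refine ⟨R, hR, τ, G ∘ τ, hG, fun c hc' => ?_⟩
  obtain ⟨c, hcR, rfl⟩ := List.mem_map.1 hc'
  have h1 := hh c hcR
  have hm' : ∀ x y, ⟪(G ∘ τ) x, (G ∘ τ) y⟫ = LM (n ∘ τ) (d ∘ τ) (e ∘ τ) k al be ga x y :=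
    fun x y => hm (τ x) (τ y)
  have dot : ∀ (v : V4) (a : Fin 4 → ℝ), Cvr.vR v ⬝ᵥ (a ∘ σ) =
      ∑ i, ((vc v i : ℤ) : ℝ) * (a ∘ τ) i := by
    intro v a
    unfold dotProduct
    refine Finset.sum_congr rfl fun i _ => ?_
    rw [vR_vc]
    rfl
  cases c with
  | l m f =>
    show 0 ≤ lform (G ∘ τ) (vc m) (vc f)
    rw [lform_chart hm']
    unfold Cvr.Hold at h1
    rw [hn', hd', he'] at h1
    simp only [dot] at h1
    linarith
  | q v w =>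
    show 0 ≤ qform (p ∘ τ) (vc v) (vc w)
    have hz1 := hz R hR _ hcR
    obtain ⟨hz1, hz2⟩ := bAnd.1 hz1
    have hv : ∑ i, vc v i = 0 := by
      rw [Fin.sum_univ_four]
      exact of_decide_eq_true hz1
    have hw : ∑ i, vc w i = 0 := by
      rw [Fin.sum_univ_four]
      exact of_decide_eq_true hz2
    have h2 := qform_chart hG hm' (hD.perm τ) (vc v) (vc w) hv hw
    unfold Cvr.Hold at h1
    rw [hs', hq', hr'] at h1
    simp only [dot] at h1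
    have h3 : 0 < k * (al * be - ga ^ 2) := mul_pos hk (by linarith)
    have h4 : 0 ≤ k * (al * be - ga ^ 2) * qform (p ∘ τ) (vc v) (vc w) := by
      rw [h2]
      linarith
    exact (mul_nonneg_iff_of_pos_left h3).1 h4

theorem glueRN {p G : Fin 4 → E3} (h : Grad p G) {a c k al be ga : ℝ}
    (hC : ChartN G a c k al be ga) {T : List (List Cd)} (hz : ∀ R ∈ T, ∀ c ∈ R, zc c = true)
    (hc : Cvr.Cvd 0 T a c k al be ga) : ∃ R ∈ T, ∃ τ : Equiv.Perm (Fin 4), InR R (p ∘ τ) :=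
  glueR h hC.k0 hC.ga1 hC.mat (dualN a c) rfl rfl rfl rfl rfl rfl hz hc

theorem glueRS {p G : Fin 4 → E3} (h : Grad p G) {v w k al be ga : ℝ}
    (hC : ChartS G v w k al be ga) {T : List (List Cd)} (hz : ∀ R ∈ T, ∀ c ∈ R, zc c = true)
    (hc : Cvr.Cvd 1 T v w k al be ga) : ∃ R ∈ T, ∃ τ : Equiv.Perm (Fin 4), InR R (p ∘ τ) := by
  have e : Cvr.nR 1 v w = nS v w := by
    have e1 : v + w - 1 = -(1 - v - w) := by ring
    unfold Cvr.nR nS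
    rw [e1]
  exact glueR h hC.k0 hC.ga1 hC.mat (dualS v w) e rfl rfl rfl rfl rfl hz hc

theorem exists_perm {p q : Fin 4 → E3} (hp : Function.Injective p) (hq : Function.Injective q)
    (h : Set.range q = Set.range p) : ∃ σ : Equiv.Perm (Fin 4), q = p ∘ σ := by
  let e : Fin 4 ≃ Fin 4 :=
    (Equiv.ofInjective q hq).trans ((Equiv.setCongr h).trans (Equiv.ofInjective p hp).symm)
  refine ⟨e, ?_⟩
  funext i
  have h1 : (Equiv.ofInjective p hp) (e i) = (Equiv.setCongr h) (Equiv.ofInjective q hq i) :=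
    Equiv.apply_symm_apply _ _
  exact (congrArg Subtype.val h1).symm

/-- **all tetrahedra outside of the exception regions**, from the tables and the covers -/
theorem most_tetrahedra {X TN TS : List (List Cd)} (rN : ∀ R ∈ TN, R ∈ X ∨ ROK R)
    (zN : zcT TN = true) (rS : ∀ R ∈ TS, R ∈ X ∨ ROK R) (zS : zcT TS = true) (hN : CoverN TN)
    (hS : CoverS TS) {p : Fin 4 → E3} (hp : AffineIndependent ℝ p)
    (hX : ∀ R ∈ X, ∀ σ : Equiv.Perm (Fin 4), ¬ InR R (p ∘ σ)) :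
    Dense (convexHull ℝ (Set.range p)) := by
  have key : ∀ (T : List (List Cd)), (∀ R ∈ T, R ∈ X ∨ ROK R) → ∀ q : Fin 4 → E3,
      Set.range q = Set.range p → AffineIndependent ℝ q →
      (∃ R ∈ T, ∃ τ : Equiv.Perm (Fin 4), InR R (q ∘ τ)) →
      Dense (convexHull ℝ (Set.range p)) := by
    intro T hT q hr hq h
    obtain ⟨R, hR, τ, hI⟩ := h
    obtain ⟨σ, rfl⟩ := exists_perm hp.injective hq.injective hr
    rcases hT R hR with h1 | h1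
    · exact absurd hI (hX R h1 (τ.trans σ))
    · obtain ⟨G, hG, hc⟩ := hI
      have h2 := h1 _ _ hG hc
      rw [range_perm, range_perm] at h2
      exact h2
  rcases reduction hp with h | ⟨q, G, a, c, k, al, be, ga, hG, hr, hC⟩ |
    ⟨q, G, v, w, k, al, be, ga, hG, hr, hC⟩
  · exact h
  · exact key TN rN q hr hG.aff (glueRN hG hC (zcT_zc zN) (hN a c k al be ga hC.k0 hC.a0 hC.ac
      hC.c1 hC.al0 hC.al1 hC.be0 hC.be1 hC.ga1))
  · exact key TS rS q hr hG.aff (glueRS hG hC (zcT_zc zS) (hS v w k al be ga hC.k0 hC.w0 hC.wv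
      hC.v1 hC.vw hC.al0 hC.be0 hC.ga1))

/-! ### lists of good regions with exceptions -/

theorem okl_nil {X : List (List Cd)} : ∀ R ∈ ([] : List (List Cd)), R ∈ X ∨ ROK R :=
  fun _ h => absurd h List.not_mem_nil

theorem okl_cons {X : List (List Cd)} {R : List Cd} {T : List (List Cd)} (h : ROK R)
    (hT : ∀ R ∈ T, R ∈ X ∨ ROK R) : ∀ S ∈ (R :: T), S ∈ X ∨ ROK S :=
  fun S hS => (List.mem_cons.1 hS).elim (fun e => Or.inr (e ▸ h)) (hT S)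

theorem okl_x {X : List (List Cd)} {R : List Cd} {T : List (List Cd)} (h : R ∈ X)
    (hT : ∀ R ∈ T, R ∈ X ∨ ROK R) : ∀ S ∈ (R :: T), S ∈ X ∨ ROK S :=
  fun S hS => (List.mem_cons.1 hS).elim (fun e => Or.inl (e ▸ h)) (hT S)

/-- one exception region -/
theorem okl_of {X : List Cd} {T : List (List Cd)} (h : ∀ R ∈ T, R = X ∨ ROK R) :
    ∀ R ∈ T, R ∈ [X] ∨ ROK R :=
  fun R hR => (h R hR).elim (fun e => Or.inl (e ▸ List.mem_cons_self)) Or.inr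

/-! ### conditions in plain form -/

theorem InR.q {R : List Cd} {p : Fin 4 → E3} (h : InR R p) {v w : V4} (hm : Cd.q v w ∈ R) :
    0 ≤ qform p (vc v) (vc w) := by
  obtain ⟨G, -, hc⟩ := h
  exact hc _ (List.mem_map_of_mem (f := cdc) hm)

theorem qform_eq (p : Fin 4 → E3) (v w : V4) : qform p (vc v) (vc w) =
    ⟪(v.a : ℝ) • p 0 + (v.b : ℝ) • p 1 + (v.c : ℝ) • p 2 + (v.d : ℝ) • p 3,
      (w.a : ℝ) • p 0 + (w.b : ℝ) • p 1 + (w.c : ℝ) • p 2 + (w.d : ℝ) • p 3⟫ := by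
  unfold qform
  rw [Fin.sum_univ_four, Fin.sum_univ_four]
  rfl

/-- `s |A C| ≤ r |A B|` -/
def xA (r s : ℤ) : Cd := Cd.q ⟨s - r, r, -s, 0⟩ ⟨-r - s, r, s, 0⟩

/-- `s |C D| ≤ r |A B|` -/
def xD (r s : ℤ) : Cd := Cd.q ⟨-r, r, s, -s⟩ ⟨-r, r, -s, s⟩

/-- the foot of `D` on `A B` is at least `a / b` -/
def xB (a b : ℤ) : Cd := Cd.q ⟨a - b, -a, 0, b⟩ ⟨-1, 1, 0, 0⟩

/-- the foot of `D` on `A B` is at most `c / d` -/
def xC (c d : ℤ) : Cd := Cd.q ⟨d - c, c, 0, -d⟩ ⟨-1, 1, 0, 0⟩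

/-- the foot of `C` on `A B` is at least `a / b` -/
def xE (a b : ℤ) : Cd := Cd.q ⟨a - b, -a, b, 0⟩ ⟨-1, 1, 0, 0⟩

/-- the foot of `C` on `A B` is at most `c / d` -/
def xF (c d : ℤ) : Cd := Cd.q ⟨d - c, c, -d, 0⟩ ⟨-1, 1, 0, 0⟩

theorem dist_le_of_inner {u v : E3} {r s : ℝ} (hr : 0 ≤ r)
    (h : 0 ≤ ⟪r • u - s • v, r • u + s • v⟫) : s * ‖v‖ ≤ r * ‖u‖ := by
  have e : ⟪r • u - s • v, r • u + s • v⟫ = (r * ‖u‖) ^ 2 - (s * ‖v‖) ^ 2 := by
    rw [inner_sub_left, inner_add_right, inner_add_right, real_inner_smul_left,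
      real_inner_smul_left, real_inner_smul_left, real_inner_smul_left, real_inner_smul_right,
      real_inner_smul_right, real_inner_smul_right, real_inner_smul_right,
      real_inner_self_eq_norm_sq, real_inner_self_eq_norm_sq, real_inner_comm u v]
    ring
  rw [e] at h
  exact le_of_abs_le ((sq_le_sq.1 (by linarith)).trans_eq
    (abs_of_nonneg (mul_nonneg hr (norm_nonneg u))))

theorem InR.hA {R : List Cd} {p : Fin 4 → E3} (h : InR R p) {r s : ℤ} (hm : xA r s ∈ R)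
    (hr : 0 ≤ r) : (s : ℝ) * dist (p 0) (p 2) ≤ r * dist (p 0) (p 1) := by
  have h1 := h.q hm
  rw [qform_eq] at h1
  have e1 : (((s - r : ℤ) : ℝ)) • p 0 + (r : ℝ) • p 1 + (((-s : ℤ) : ℝ)) • p 2 +
      (((0 : ℤ) : ℝ)) • p 3 = (r : ℝ) • (p 1 - p 0) - (s : ℝ) • (p 2 - p 0) := by
    push_cast
    module
  have e2 : (((-r - s : ℤ) : ℝ)) • p 0 + (r : ℝ) • p 1 + (((s : ℤ) : ℝ)) • p 2 +
      (((0 : ℤ) : ℝ)) • p 3 = (r : ℝ) • (p 1 - p 0) + (s : ℝ) • (p 2 - p 0) := by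
    push_cast
    module
  rw [e1, e2] at h1
  rw [dist_comm (p 0) (p 2), dist_comm (p 0) (p 1), dist_eq_norm, dist_eq_norm]
  exact dist_le_of_inner (by exact_mod_cast hr) h1

theorem InR.hD {R : List Cd} {p : Fin 4 → E3} (h : InR R p) {r s : ℤ} (hm : xD r s ∈ R)
    (hr : 0 ≤ r) : (s : ℝ) * dist (p 2) (p 3) ≤ r * dist (p 0) (p 1) := by
  have h1 := h.q hm
  rw [qform_eq] at h1
  have e1 : (((-r : ℤ) : ℝ)) • p 0 + (r : ℝ) • p 1 + (s : ℝ) • p 2 +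
      (((-s : ℤ) : ℝ)) • p 3 = (r : ℝ) • (p 1 - p 0) + (s : ℝ) • (p 2 - p 3) := by
    push_cast
    module
  have e2 : (((-r : ℤ) : ℝ)) • p 0 + (r : ℝ) • p 1 + (((-s : ℤ) : ℝ)) • p 2 +
      (s : ℝ) • p 3 = (r : ℝ) • (p 1 - p 0) - (s : ℝ) • (p 2 - p 3) := by
    push_cast
    module
  rw [e1, e2, real_inner_comm] at h1
  rw [dist_comm (p 0) (p 1), dist_eq_norm, dist_eq_norm]
  exact dist_le_of_inner (by exact_mod_cast hr) h1

theorem foot_ge {u v : E3} {a b : ℝ} (h : 0 ≤ ⟪b • v - a • u, u⟫) : a * ‖u‖ ^ 2 ≤ b * ⟪u, v⟫ := by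
  rw [inner_sub_left, real_inner_smul_left, real_inner_smul_left, real_inner_self_eq_norm_sq,
    real_inner_comm] at h
  linarith

theorem foot_le {u v : E3} {c d : ℝ} (h : 0 ≤ ⟪c • u - d • v, u⟫) : d * ⟪u, v⟫ ≤ c * ‖u‖ ^ 2 := by
  rw [inner_sub_left, real_inner_smul_left, real_inner_smul_left, real_inner_self_eq_norm_sq,
    real_inner_comm] at h
  linarith

theorem ab_eq (p : Fin 4 → E3) : (((-1 : ℤ) : ℝ)) • p 0 + (((1 : ℤ) : ℝ)) • p 1 +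
    (((0 : ℤ) : ℝ)) • p 2 + (((0 : ℤ) : ℝ)) • p 3 = p 1 - p 0 := by
  push_cast
  module

theorem InR.hB {R : List Cd} {p : Fin 4 → E3} (h : InR R p) {a b : ℤ} (hm : xB a b ∈ R) :
    (a : ℝ) * dist (p 0) (p 1) ^ 2 ≤ b * ⟪p 1 - p 0, p 3 - p 0⟫ := by
  have h1 := h.q hm
  rw [qform_eq] at h1
  have e1 : (((a - b : ℤ) : ℝ)) • p 0 + (((-a : ℤ) : ℝ)) • p 1 + (((0 : ℤ) : ℝ)) • p 2 +
      (b : ℝ) • p 3 = (b : ℝ) • (p 3 - p 0) - (a : ℝ) • (p 1 - p 0) := by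
    push_cast
    module
  rw [e1, ab_eq] at h1
  rw [dist_comm, dist_eq_norm]
  exact foot_ge h1

theorem InR.hC {R : List Cd} {p : Fin 4 → E3} (h : InR R p) {c d : ℤ} (hm : xC c d ∈ R) :
    (d : ℝ) * ⟪p 1 - p 0, p 3 - p 0⟫ ≤ c * dist (p 0) (p 1) ^ 2 := by
  have h1 := h.q hm
  rw [qform_eq] at h1
  have e1 : (((d - c : ℤ) : ℝ)) • p 0 + (c : ℝ) • p 1 + (((0 : ℤ) : ℝ)) • p 2 +
      (((-d : ℤ) : ℝ)) • p 3 = (c : ℝ) • (p 1 - p 0) - (d : ℝ) • (p 3 - p 0) := by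
    push_cast
    module
  rw [e1, ab_eq] at h1
  rw [dist_comm, dist_eq_norm]
  exact foot_le h1

theorem InR.hE {R : List Cd} {p : Fin 4 → E3} (h : InR R p) {a b : ℤ} (hm : xE a b ∈ R) :
    (a : ℝ) * dist (p 0) (p 1) ^ 2 ≤ b * ⟪p 1 - p 0, p 2 - p 0⟫ := by
  have h1 := h.q hm
  rw [qform_eq] at h1
  have e1 : (((a - b : ℤ) : ℝ)) • p 0 + (((-a : ℤ) : ℝ)) • p 1 + (b : ℝ) • p 2 +
      (((0 : ℤ) : ℝ)) • p 3 = (b : ℝ) • (p 2 - p 0) - (a : ℝ) • (p 1 - p 0) := by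
    push_cast
    module
  rw [e1, ab_eq] at h1
  rw [dist_comm, dist_eq_norm]
  exact foot_ge h1

theorem InR.hF {R : List Cd} {p : Fin 4 → E3} (h : InR R p) {c d : ℤ} (hm : xF c d ∈ R) :
    (d : ℝ) * ⟪p 1 - p 0, p 2 - p 0⟫ ≤ c * dist (p 0) (p 1) ^ 2 := by
  have h1 := h.q hm
  rw [qform_eq] at h1
  have e1 : (((d - c : ℤ) : ℝ)) • p 0 + (c : ℝ) • p 1 + (((-d : ℤ) : ℝ)) • p 2 +
      (((0 : ℤ) : ℝ)) • p 3 = (c : ℝ) • (p 1 - p 0) - (d : ℝ) • (p 2 - p 0) := by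
    push_cast
    module
  rw [e1, ab_eq] at h1
  rw [dist_comm, dist_eq_norm]
  exact foot_le h1

end Pool.Agent.TET
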