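import Pool.Agent.Helper86_TET.LastX

/-!
# MP_c7c9bf_co: all tetrahedra outside of an explicit region
-/

set_option autoImplicit false

namespace Pool.Agent.TET

open MeasureTheory Set Filter Pool.Agent.UL3 Pool.Agent.UL3.H88
open scoped ENNReal Topology RealInnerProductSpace Matrix
open Cvr (V4 Cd)

/-- the conditions of the region `[xA r s, xB a b, xC c d]` in plain form: `s |A C| ≤ r |A B|` and the
foot of `D` on `A B` is between `a / b` and `c / d` -/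
def Ex0 (r s a b c d : ℝ) (A B C D : E3) : Prop :=
  s * dist A C ≤ r * dist A B ∧ a * dist A B ^ 2 ≤ b * ⟪B - A, D - A⟫ ∧
    d * ⟪B - A, D - A⟫ ≤ c * dist A B ^ 2

/-- the conditions of the region `[xD r s, xE a b, xF c d]` in plain form: `s |C D| ≤ r |A B|` and the
foot of `C` on `A B` is between `a / b` and `c / d` -/
def Ex1 (r s a b c d : ℝ) (A B C D : E3) : Prop :=
  s * dist C D ≤ r * dist A B ∧ a * dist A B ^ 2 ≤ b * ⟪B - A, C - A⟫ ∧
    d * ⟪B - A, C - A⟫ ≤ c * dist A B ^ 2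

theorem ex0_of {r s a b c d : ℤ} (hr : 0 ≤ r) {R : List Cd} (hR : R = [xA r s, xB a b, xC c d])
    {p : Fin 4 → E3} {σ : Equiv.Perm (Fin 4)} (h : InR R (p ∘ σ)) :
    Ex0 r s a b c d (p (σ 0)) (p (σ 1)) (p (σ 2)) (p (σ 3)) := by
  subst hR
  exact ⟨h.hA List.mem_cons_self hr, h.hB (List.mem_cons_of_mem _ List.mem_cons_self),
    h.hC (List.mem_cons_of_mem _ (List.mem_cons_of_mem _ List.mem_cons_self))⟩

theorem ex1_of {r s a b c d : ℤ} (hr : 0 ≤ r) {R : List Cd} (hR : R = [xD r s, xE a b, xF c d])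
    {p : Fin 4 → E3} {σ : Equiv.Perm (Fin 4)} (h : InR R (p ∘ σ)) :
    Ex1 r s a b c d (p (σ 0)) (p (σ 1)) (p (σ 2)) (p (σ 3)) := by
  subst hR
  exact ⟨h.hD List.mem_cons_self hr, h.hE (List.mem_cons_of_mem _ List.mem_cons_self),
    h.hF (List.mem_cons_of_mem _ (List.mem_cons_of_mem _ List.mem_cons_self))⟩

/-- one exception region of the first kind -/
theorem planB1 {r s a b c d : ℤ} (hr : 0 ≤ r) {X : List Cd} (hx : X = [xA r s, xB a b, xC c d])
    {TN TS : List (List Cd)} (rN : ∀ R ∈ TN, R = X ∨ ROK R) (zN : zcT TN = true)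
    (rS : ∀ R ∈ TS, R = X ∨ ROK R) (zS : zcT TS = true) (hN : CoverN TN) (hS : CoverS TS)
    {p : Fin 4 → E3} (hp : AffineIndependent ℝ p)
    (hX : ∀ σ : Equiv.Perm (Fin 4),
      ¬ Ex0 r s a b c d (p (σ 0)) (p (σ 1)) (p (σ 2)) (p (σ 3))) :
    Dense (convexHull ℝ (Set.range p)) := by
  refine most_tetrahedra (X := [X]) (okl_of rN) zN (okl_of rS) zS hN hS hp ?_
  intro R hR σ h
  have hR' : R = X := List.mem_singleton.1 hR
  exact hX σ (ex0_of hr (hR'.trans hx) h)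

/-- two exception regions, one of each kind -/
theorem planB2 {r s a b c d r' s' a' b' c' d' : ℤ} (hr : 0 ≤ r) (hr' : 0 ≤ r') {X X' : List Cd}
    (hx : X = [xA r s, xB a b, xC c d]) (hx' : X' = [xD r' s', xE a' b', xF c' d'])
    {TN TS : List (List Cd)} (rN : ∀ R ∈ TN, R ∈ [X, X'] ∨ ROK R) (zN : zcT TN = true)
    (rS : ∀ R ∈ TS, R ∈ [X, X'] ∨ ROK R) (zS : zcT TS = true) (hN : CoverN TN) (hS : CoverS TS)
    {p : Fin 4 → E3} (hp : AffineIndependent ℝ p)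
    (hX : ∀ σ : Equiv.Perm (Fin 4),
      ¬ Ex0 r s a b c d (p (σ 0)) (p (σ 1)) (p (σ 2)) (p (σ 3)))
    (hX' : ∀ σ : Equiv.Perm (Fin 4),
      ¬ Ex1 r' s' a' b' c' d' (p (σ 0)) (p (σ 1)) (p (σ 2)) (p (σ 3))) :
    Dense (convexHull ℝ (Set.range p)) := by
  refine most_tetrahedra (X := [X, X']) rN zN rS zS hN hS hp ?_
  intro R hR σ h
  rcases List.mem_cons.1 hR with h1 | h1
  · exact hX σ (ex0_of hr (h1.trans hx) h)
  · exact hX' σ (ex1_of hr' ((List.mem_singleton.1 h1).trans hx') h)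

/-- the longest edge is at most `K` times the shortest one -/
def Rat (K : ℝ) (p : Fin 4 → E3) : Prop :=
  ∀ i j k l : Fin 4, k ≠ l → dist (p i) (p j) ≤ K * dist (p k) (p l)

theorem rat_aux {K r s x y : ℝ} (hr : 0 ≤ r) (hK : K * r < s) (hy : 0 < y) (h1 : s * y ≤ r * x)
    (h2 : x ≤ K * y) : False := by
  have h3 : s * y ≤ r * (K * y) := h1.trans (mul_le_mul_of_nonneg_left h2 hr)
  have h4 : K * r * y < s * y := mul_lt_mul_of_pos_right hK hy
  have e : r * (K * y) = K * r * y := by ring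
  rw [e] at h3
  exact absurd h3 (not_le.2 h4)

theorem Rat.ex0 {K : ℝ} {p : Fin 4 → E3} (h : Rat K p) (hp : AffineIndependent ℝ p)
    {r s a b c d : ℝ} (hr : 0 ≤ r) (hK : K * r < s) (σ : Equiv.Perm (Fin 4)) :
    ¬ Ex0 r s a b c d (p (σ 0)) (p (σ 1)) (p (σ 2)) (p (σ 3)) := by
  rintro ⟨h1, -, -⟩
  have hne : σ 0 ≠ σ 2 := fun e => absurd (σ.injective e) (by decide)
  exact rat_aux hr hK (dist_pos.2 fun e => hne (hp.injective e)) h1 (h _ _ _ _ hne)

theorem Rat.ex1 {K : ℝ} {p : Fin 4 → E3} (h : Rat K p) (hp : AffineIndependent ℝ p)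
    {r s a b c d : ℝ} (hr : 0 ≤ r) (hK : K * r < s) (σ : Equiv.Perm (Fin 4)) :
    ¬ Ex1 r s a b c d (p (σ 0)) (p (σ 1)) (p (σ 2)) (p (σ 3)) := by
  rintro ⟨h1, -, -⟩
  have hne : σ 2 ≠ σ 3 := fun e => absurd (σ.injective e) (by decide)
  exact rat_aux hr hK (dist_pos.2 fun e => hne (hp.injective e)) h1 (h _ _ _ _ hne)

end Pool.Agent.TET
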