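import Pool.Agent.Helper86_TET.PlanB

/-!
# MP_c7c9bf_co: all tetrahedra outside of an explicit region with up to seven conditions
-/

set_option autoImplicit false

namespace Pool.Agent.TET

open MeasureTheory Set Filter Pool.Agent.UL3 Pool.Agent.UL3.H88
open scoped ENNReal Topology RealInnerProductSpace Matrix
open Cvr (V4 Cd)

/-- `s |B D| ≤ r |A B|` -/
def xG (r s : ℤ) : Cd := Cd.q ⟨-r, r + s, 0, -s⟩ ⟨-r, r - s, 0, s⟩

/-- `s |A D| ≤ r |A B|` -/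
def xH (r s : ℤ) : Cd := Cd.q ⟨s - r, r, 0, -s⟩ ⟨-r - s, r, 0, s⟩

/-- `s |B C| ≤ r |A B|` -/
def xI (r s : ℤ) : Cd := Cd.q ⟨-r, r + s, -s, 0⟩ ⟨-r, r - s, s, 0⟩

theorem InR.hG {R : List Cd} {p : Fin 4 → E3} (h : InR R p) {r s : ℤ} (hm : xG r s ∈ R)
    (hr : 0 ≤ r) : (s : ℝ) * dist (p 1) (p 3) ≤ r * dist (p 0) (p 1) := by
  have h1 := h.q hm
  rw [qform_eq] at h1
  have e1 : (((-r : ℤ) : ℝ)) • p 0 + (((r + s : ℤ) : ℝ)) • p 1 + (((0 : ℤ) : ℝ)) • p 2 +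
      (((-s : ℤ) : ℝ)) • p 3 = (r : ℝ) • (p 1 - p 0) - (s : ℝ) • (p 3 - p 1) := by
    push_cast
    module
  have e2 : (((-r : ℤ) : ℝ)) • p 0 + (((r - s : ℤ) : ℝ)) • p 1 + (((0 : ℤ) : ℝ)) • p 2 +
      (s : ℝ) • p 3 = (r : ℝ) • (p 1 - p 0) + (s : ℝ) • (p 3 - p 1) := by
    push_cast
    module
  rw [e1, e2] at h1
  rw [dist_comm (p 1) (p 3), dist_comm (p 0) (p 1), dist_eq_norm, dist_eq_norm]
  exact dist_le_of_inner (by exact_mod_cast hr) h1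

theorem InR.hH {R : List Cd} {p : Fin 4 → E3} (h : InR R p) {r s : ℤ} (hm : xH r s ∈ R)
    (hr : 0 ≤ r) : (s : ℝ) * dist (p 0) (p 3) ≤ r * dist (p 0) (p 1) := by
  have h1 := h.q hm
  rw [qform_eq] at h1
  have e1 : (((s - r : ℤ) : ℝ)) • p 0 + (r : ℝ) • p 1 + (((0 : ℤ) : ℝ)) • p 2 +
      (((-s : ℤ) : ℝ)) • p 3 = (r : ℝ) • (p 1 - p 0) - (s : ℝ) • (p 3 - p 0) := by
    push_cast
    module
  have e2 : (((-r - s : ℤ) : ℝ)) • p 0 + (r : ℝ) • p 1 + (((0 : ℤ) : ℝ)) • p 2 +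
      (s : ℝ) • p 3 = (r : ℝ) • (p 1 - p 0) + (s : ℝ) • (p 3 - p 0) := by
    push_cast
    module
  rw [e1, e2] at h1
  rw [dist_comm (p 0) (p 3), dist_comm (p 0) (p 1), dist_eq_norm, dist_eq_norm]
  exact dist_le_of_inner (by exact_mod_cast hr) h1

theorem InR.hI {R : List Cd} {p : Fin 4 → E3} (h : InR R p) {r s : ℤ} (hm : xI r s ∈ R)
    (hr : 0 ≤ r) : (s : ℝ) * dist (p 1) (p 2) ≤ r * dist (p 0) (p 1) := by
  have h1 := h.q hm
  rw [qform_eq] at h1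
  have e1 : (((-r : ℤ) : ℝ)) • p 0 + (((r + s : ℤ) : ℝ)) • p 1 + (((-s : ℤ) : ℝ)) • p 2 +
      (((0 : ℤ) : ℝ)) • p 3 = (r : ℝ) • (p 1 - p 0) - (s : ℝ) • (p 2 - p 1) := by
    push_cast
    module
  have e2 : (((-r : ℤ) : ℝ)) • p 0 + (((r - s : ℤ) : ℝ)) • p 1 + (s : ℝ) • p 2 +
      (((0 : ℤ) : ℝ)) • p 3 = (r : ℝ) • (p 1 - p 0) + (s : ℝ) • (p 2 - p 1) := by
    push_cast
    module
  rw [e1, e2] at h1
  rw [dist_comm (p 1) (p 2), dist_comm (p 0) (p 1), dist_eq_norm, dist_eq_norm]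
  exact dist_le_of_inner (by exact_mod_cast hr) h1

/-- the conditions of `[xA r s, xE a b, xF c d, xB a' b', xC c' d', xG r' s']` in plain form:
`s |A C| ≤ r |A B|`, the foot of `C` on `A B` is between `a / b` and `c / d`, the foot of `D` is between
`a' / b'` and `c' / d'`, `s' |B D| ≤ r' |A B|` -/
def Ex3 (r s a b c d a' b' c' d' r' s' : ℝ) (A B C D : E3) : Prop :=
  s * dist A C ≤ r * dist A B ∧ a * dist A B ^ 2 ≤ b * ⟪B - A, C - A⟫ ∧
    d * ⟪B - A, C - A⟫ ≤ c * dist A B ^ 2 ∧ a' * dist A B ^ 2 ≤ b' * ⟪B - A, D - A⟫ ∧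
    d' * ⟪B - A, D - A⟫ ≤ c' * dist A B ^ 2 ∧ s' * dist B D ≤ r' * dist A B

/-- the region `Ex3` -/
def X3 (r s a b c d a' b' c' d' r' s' : ℤ) : List Cd :=
  [xA r s, xE a b, xF c d, xB a' b', xC c' d', xG r' s']

theorem ex3_of {r s a b c d a' b' c' d' r' s' : ℤ} (hr : 0 ≤ r) (hr' : 0 ≤ r') {R : List Cd}
    (hR : R = X3 r s a b c d a' b' c' d' r' s') {p : Fin 4 → E3} {σ : Equiv.Perm (Fin 4)}
    (h : InR R (p ∘ σ)) : Ex3 r s a b c d a' b' c' d' r' s' (p (σ 0)) (p (σ 1)) (p (σ 2))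
      (p (σ 3)) := by
  subst hR
  exact ⟨h.hA List.mem_cons_self hr, h.hE (List.mem_cons_of_mem _ List.mem_cons_self),
    h.hF (List.mem_cons_of_mem _ (List.mem_cons_of_mem _ List.mem_cons_self)),
    h.hB (List.mem_cons_of_mem _ (List.mem_cons_of_mem _ (List.mem_cons_of_mem _
      List.mem_cons_self))),
    h.hC (List.mem_cons_of_mem _ (List.mem_cons_of_mem _ (List.mem_cons_of_mem _
      (List.mem_cons_of_mem _ List.mem_cons_self)))),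
    h.hG (List.mem_cons_of_mem _ (List.mem_cons_of_mem _ (List.mem_cons_of_mem _
      (List.mem_cons_of_mem _ (List.mem_cons_of_mem _ List.mem_cons_self))))) hr'⟩

/-- one exception region with six conditions -/
theorem planB3 {r s a b c d a' b' c' d' r' s' : ℤ} (hr : 0 ≤ r) (hr' : 0 ≤ r') {X : List Cd}
    (hx : X = X3 r s a b c d a' b' c' d' r' s')
    {TN TS : List (List Cd)} (rN : ∀ R ∈ TN, R = X ∨ ROK R) (zN : zcT TN = true)
    (rS : ∀ R ∈ TS, R = X ∨ ROK R) (zS : zcT TS = true) (hN : CoverN TN) (hS : CoverS TS)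
    {p : Fin 4 → E3} (hp : AffineIndependent ℝ p)
    (hX : ∀ σ : Equiv.Perm (Fin 4),
      ¬ Ex3 r s a b c d a' b' c' d' r' s' (p (σ 0)) (p (σ 1)) (p (σ 2)) (p (σ 3))) :
    Dense (convexHull ℝ (Set.range p)) := by
  refine most_tetrahedra (X := [X]) (okl_of rN) zN (okl_of rS) zS hN hS hp ?_
  intro R hR σ h
  have hR' : R = X := List.mem_singleton.1 hR
  exact hX σ (ex3_of hr hr' (hR'.trans hx) h)

theorem Rat.ex3 {K : ℝ} {p : Fin 4 → E3} (h : Rat K p) (hp : AffineIndependent ℝ p)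
    {r s a b c d a' b' c' d' r' s' : ℝ} (hr : 0 ≤ r) (hK : K * r < s) (σ : Equiv.Perm (Fin 4)) :
    ¬ Ex3 r s a b c d a' b' c' d' r' s' (p (σ 0)) (p (σ 1)) (p (σ 2)) (p (σ 3)) := by
  rintro ⟨h1, -⟩
  have hne : σ 0 ≠ σ 2 := fun e => absurd (σ.injective e) (by decide)
  exact rat_aux hr hK (dist_pos.2 fun e => hne (hp.injective e)) h1 (h _ _ _ _ hne)

/-! ### a general exception region

A condition of the exception region and its plain form. -/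

/-- a plain condition: the kind (`0` : `s |A C| ≤ r |A B|`, `1` : `s |B D| ≤ r |A B|`,
`2` : `s |C D| ≤ r |A B|`, `3` : `s |A D| ≤ r |A B|`, `4` : `s |B C| ≤ r |A B|`, `5` : the foot of `C` on
`A B` is `≥ r / s`, `6` : it is `≤ r / s`, `7`, `8` : the same for the foot of `D`) and `r`, `s` -/
def plain (A B C D : E3) (t : ℕ × ℤ × ℤ) : Prop :=
  match t with
  | (0, r, s) => (s : ℝ) * dist A C ≤ r * dist A B
  | (1, r, s) => (s : ℝ) * dist B D ≤ r * dist A B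
  | (2, r, s) => (s : ℝ) * dist C D ≤ r * dist A B
  | (3, r, s) => (s : ℝ) * dist A D ≤ r * dist A B
  | (4, r, s) => (s : ℝ) * dist B C ≤ r * dist A B
  | (5, r, s) => (r : ℝ) * dist A B ^ 2 ≤ s * ⟪B - A, C - A⟫
  | (6, r, s) => (s : ℝ) * ⟪B - A, C - A⟫ ≤ r * dist A B ^ 2
  | (7, r, s) => (r : ℝ) * dist A B ^ 2 ≤ s * ⟪B - A, D - A⟫
  | (8, r, s) => (s : ℝ) * ⟪B - A, D - A⟫ ≤ r * dist A B ^ 2
  | _ => True

/-- the condition of the cover -/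
def xcd (t : ℕ × ℤ × ℤ) : Cd :=
  match t with
  | (0, r, s) => xA r s
  | (1, r, s) => xG r s
  | (2, r, s) => xD r s
  | (3, r, s) => xH r s
  | (4, r, s) => xI r s
  | (5, r, s) => xE r s
  | (6, r, s) => xF r s
  | (7, r, s) => xB r s
  | (8, r, s) => xC r s
  | _ => xA 0 0

theorem plain_of {R : List Cd} {p : Fin 4 → E3} (h : InR R p) {t : ℕ × ℤ × ℤ}
    (hm : xcd t ∈ R) (hr : 0 ≤ t.2.1) : plain (p 0) (p 1) (p 2) (p 3) t := by
  obtain ⟨k, r, s⟩ := t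
  match k, hm with
  | 0, hm => exact h.hA hm hr
  | 1, hm => exact h.hG hm hr
  | 2, hm => exact h.hD hm hr
  | 3, hm => exact h.hH hm hr
  | 4, hm => exact h.hI hm hr
  | 5, hm => exact h.hE hm
  | 6, hm => exact h.hF hm
  | 7, hm => exact h.hB hm
  | 8, hm => exact h.hC hm
  | (n + 9), _ => exact trivial

/-- exception regions given by plain conditions -/
theorem planBG {X : List (List (ℕ × ℤ × ℤ))} (hX0 : ∀ R ∈ X, ∀ t ∈ R, 0 ≤ t.2.1)
    {TN TS : List (List Cd)} (rN : ∀ R ∈ TN, R ∈ X.map (List.map xcd) ∨ ROK R)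
    (zN : zcT TN = true) (rS : ∀ R ∈ TS, R ∈ X.map (List.map xcd) ∨ ROK R)
    (zS : zcT TS = true) (hN : CoverN TN) (hS : CoverS TS)
    {p : Fin 4 → E3} (hp : AffineIndependent ℝ p)
    (hX : ∀ R ∈ X, ∀ σ : Equiv.Perm (Fin 4),
      ¬ ∀ t ∈ R, plain (p (σ 0)) (p (σ 1)) (p (σ 2)) (p (σ 3)) t) :
    Dense (convexHull ℝ (Set.range p)) := by
  refine most_tetrahedra rN zN rS zS hN hS hp ?_
  intro R hR σ h
  obtain ⟨R', hR', rfl⟩ := List.mem_map.1 hR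
  exact hX R' hR' σ fun t ht => plain_of h (List.mem_map_of_mem ht) (hX0 R' hR' t ht)

end Pool.Agent.TET
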