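import Pool.Agent.Helper86_TET.PlanB3

/-!
# MP_c7c9bf_co: exception regions with conditions on the difference of the feet
-/

set_option autoImplicit false

namespace Pool.Agent.TET

open MeasureTheory Set Filter Pool.Agent.UL3 Pool.Agent.UL3.H88
open scoped ENNReal Topology RealInnerProductSpace Matrix
open Cvr (V4 Cd)

/-- the foot of `D` minus the foot of `C` is at least `a / b` -/
def xJ (a b : ℤ) : Cd := Cd.q ⟨a, -a, -b, b⟩ ⟨-1, 1, 0, 0⟩

/-- the foot of `D` minus the foot of `C` is at most `c / d` -/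
def xK (c d : ℤ) : Cd := Cd.q ⟨-c, c, d, -d⟩ ⟨-1, 1, 0, 0⟩

theorem InR.hJ {R : List Cd} {p : Fin 4 → E3} (h : InR R p) {a b : ℤ} (hm : xJ a b ∈ R) :
    (a : ℝ) * dist (p 0) (p 1) ^ 2 ≤ b * ⟪p 1 - p 0, p 3 - p 2⟫ := by
  have h1 := h.q hm
  rw [qform_eq] at h1
  have e1 : (a : ℝ) • p 0 + (((-a : ℤ) : ℝ)) • p 1 + (((-b : ℤ) : ℝ)) • p 2 +
      (b : ℝ) • p 3 = (b : ℝ) • (p 3 - p 2) - (a : ℝ) • (p 1 - p 0) := by
    push_cast
    module
  rw [e1, ab_eq] at h1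
  rw [dist_comm, dist_eq_norm]
  exact foot_ge h1

theorem InR.hK {R : List Cd} {p : Fin 4 → E3} (h : InR R p) {c d : ℤ} (hm : xK c d ∈ R) :
    (d : ℝ) * ⟪p 1 - p 0, p 3 - p 2⟫ ≤ c * dist (p 0) (p 1) ^ 2 := by
  have h1 := h.q hm
  rw [qform_eq] at h1
  have e1 : (((-c : ℤ) : ℝ)) • p 0 + (c : ℝ) • p 1 + (d : ℝ) • p 2 +
      (((-d : ℤ) : ℝ)) • p 3 = (c : ℝ) • (p 1 - p 0) - (d : ℝ) • (p 3 - p 2) := by
    push_cast
    module
  rw [e1, ab_eq] at h1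
  rw [dist_comm, dist_eq_norm]
  exact foot_le h1

/-- a plain condition, with two more kinds: `9` : the foot of `D` minus the foot of `C` is `≥ r / s`,
`10` : it is `≤ r / s` -/
def plain' (A B C D : E3) (t : ℕ × ℤ × ℤ) : Prop :=
  match t with
  | (9, r, s) => (r : ℝ) * dist A B ^ 2 ≤ s * ⟪B - A, D - C⟫
  | (10, r, s) => (s : ℝ) * ⟪B - A, D - C⟫ ≤ r * dist A B ^ 2
  | t => plain A B C D t

/-- the condition of the cover -/
def xcd' (t : ℕ × ℤ × ℤ) : Cd :=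
  match t with
  | (9, r, s) => xJ r s
  | (10, r, s) => xK r s
  | t => xcd t

theorem plain'_of {R : List Cd} {p : Fin 4 → E3} (h : InR R p) {t : ℕ × ℤ × ℤ}
    (hm : xcd' t ∈ R) (hr : 0 ≤ t.2.1) : plain' (p 0) (p 1) (p 2) (p 3) t := by
  obtain ⟨k, r, s⟩ := t
  match k, hm with
  | 0, hm => exact h.hA hm hr
  | 1, hm => exact h.hG hm hr
  | 2, hm => exact h.hD hm hr
  | 3, hm => exact h.hH hm hr
  | 4, hm => exact h.hI hm hr
  | 5, hm => exact h.hE hm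
  | 6, hm => exact h.hF hm
  | 7, hm => exact h.hB hm
  | 8, hm => exact h.hC hm
  | 9, hm => exact h.hJ hm
  | 10, hm => exact h.hK hm
  | (n + 11), _ => exact trivial

/-- exception regions given by plain conditions -/
theorem planBH {X : List (List (ℕ × ℤ × ℤ))} (hX0 : ∀ R ∈ X, ∀ t ∈ R, 0 ≤ t.2.1)
    {TN TS : List (List Cd)} (rN : ∀ R ∈ TN, R ∈ X.map (List.map xcd') ∨ ROK R)
    (zN : zcT TN = true) (rS : ∀ R ∈ TS, R ∈ X.map (List.map xcd') ∨ ROK R)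
    (zS : zcT TS = true) (hN : CoverN TN) (hS : CoverS TS)
    {p : Fin 4 → E3} (hp : AffineIndependent ℝ p)
    (hX : ∀ R ∈ X, ∀ σ : Equiv.Perm (Fin 4),
      ¬ ∀ t ∈ R, plain' (p (σ 0)) (p (σ 1)) (p (σ 2)) (p (σ 3)) t) :
    Dense (convexHull ℝ (Set.range p)) := by
  refine most_tetrahedra rN zN rS zS hN hS hp ?_
  intro R hR σ h
  obtain ⟨R', hR', rfl⟩ := List.mem_map.1 hR
  exact hX R' hR' σ fun t ht => plain'_of h (List.mem_map_of_mem ht) (hX0 R' hR' t ht)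

end Pool.Agent.TET
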