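import Pool.Agent.Helper38_TET.Glue

/-!
# MP_c7c9bf_co: tables of regions

`subT T U = true` : every region of the table `T` is in the table `U`; `zcT T = true` : the vectors of
the quadratic conditions of `T` have the sum zero.
-/

set_option autoImplicit false
set_option maxRecDepth 100000

namespace Pool.Agent.TET

open Cvr (V4 Cd)

/-- equality of integers -/
def eqI (a b : ℤ) : Bool := decide (a = b)

def eqV4 (v w : V4) : Bool :=
  Bool.and (Bool.and (eqI v.a w.a) (eqI v.b w.b)) (Bool.and (eqI v.c w.c) (eqI v.d w.d))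

def eqCd : Cd → Cd → Bool
  | Cd.l m f, Cd.l m' f' => Bool.and (eqV4 f f') (eqV4 m m')
  | Cd.q v w, Cd.q v' w' => Bool.and (eqV4 w w') (eqV4 v v')
  | _, _ => false

/-- equality of regions -/
def eqR : List Cd → List Cd → Bool
  | [], [] => true
  | c :: l, c' :: l' => Bool.and (eqCd c c') (eqR l l')
  | _, _ => false

def memT (U : List (List Cd)) (R : List Cd) : Bool := U.any (eqR R)

/-- every region of `T` is in `U` -/
def subT (T U : List (List Cd)) : Bool := T.all (memT U)

/-- the sums are zero -/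
def zcT (T : List (List Cd)) : Bool := T.all fun R => R.all zc

theorem eqI_eq {a b : ℤ} (h : eqI a b = true) : a = b := of_decide_eq_true h

theorem eqV4_eq {v w : V4} (h : eqV4 v w = true) : v = w := by
  obtain ⟨h1, h2⟩ := bAnd.1 h
  obtain ⟨h3, h4⟩ := bAnd.1 h1
  obtain ⟨h5, h6⟩ := bAnd.1 h2
  obtain ⟨a, b, c, d⟩ := v
  obtain ⟨a', b', c', d'⟩ := w
  have e1 : a = a' := eqI_eq h3
  have e2 : b = b' := eqI_eq h4
  have e3 : c = c' := eqI_eq h5
  have e4 : d = d' := eqI_eq h6
  rw [e1, e2, e3, e4]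

theorem eqCd_eq {c c' : Cd} (h : eqCd c c' = true) : c = c' := by
  cases c with
  | l m f =>
    cases c' with
    | l m' f' =>
      have h' : Bool.and (eqV4 f f') (eqV4 m m') = true := h
      obtain ⟨h1, h2⟩ := bAnd.1 h'
      rw [eqV4_eq h1, eqV4_eq h2]
    | q v w => exact absurd h Bool.false_ne_true
  | q v w =>
    cases c' with
    | l m' f' => exact absurd h Bool.false_ne_true
    | q v' w' =>
      have h' : Bool.and (eqV4 w w') (eqV4 v v') = true := h
      obtain ⟨h1, h2⟩ := bAnd.1 h'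
      rw [eqV4_eq h1, eqV4_eq h2]

theorem eqR_eq : ∀ {R R' : List Cd}, eqR R R' = true → R = R'
  | [], [], _ => rfl
  | [], _ :: _, h => absurd h Bool.false_ne_true
  | _ :: _, [], h => absurd h Bool.false_ne_true
  | c :: l, c' :: l', h => by
    have h' : Bool.and (eqCd c c') (eqR l l') = true := h
    obtain ⟨h1, h2⟩ := bAnd.1 h'
    rw [eqCd_eq h1, eqR_eq h2]

theorem subT_mem {T U : List (List Cd)} (h : subT T U = true) : ∀ R ∈ T, R ∈ U := by
  intro R hR
  have h1 : memT U R = true := List.all_eq_true.1 h R hR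
  obtain ⟨R', hR', h2⟩ := List.any_eq_true.1 h1
  rw [eqR_eq h2]
  exact hR'

theorem zcT_zc {T : List (List Cd)} (h : zcT T = true) : ∀ R ∈ T, ∀ c ∈ R, zc c = true := by
  intro R hR c hc
  have h1 : (R.all zc) = true := List.all_eq_true.1 h R hR
  exact List.all_eq_true.1 h1 c hc

/-- a table contained in a table of good regions -/
theorem rok_sub {T U : List (List Cd)} (h : subT T U = true) (hU : ∀ R ∈ U, ROK R) :
    ∀ R ∈ T, ROK R := fun R hR => hU R (subT_mem h R hR)

theorem rok_cons {R : List Cd} {T : List (List Cd)} (h : ROK R) (hT : ∀ R ∈ T, ROK R) :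
    ∀ S ∈ R :: T, ROK S := by
  intro S hS
  rcases List.mem_cons.1 hS with h1 | h1
  · rw [h1]
    exact h
  · exact hT S h1

theorem rok_append {T U : List (List Cd)} (hT : ∀ R ∈ T, ROK R) (hU : ∀ R ∈ U, ROK R) :
    ∀ S ∈ T ++ U, ROK S := by
  intro S hS
  rcases List.mem_append.1 hS with h1 | h1
  · exact hT S h1
  · exact hU S h1

end Pool.Agent.TET
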